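import Pool.Agent.H5.FR2.Stmts

/-!
# Project URB, module CIQ: the set-multilinear weakly skew circuit of a branching program
-/

set_option autoImplicit false

open Finset

namespace Pool.Agent.H5.FR2

open Pool.Agent.H5.FR Pool.Agent.H80 MvPolynomial

namespace Ciq

/-! ### Pruning keeps set-multilinearity -/

section prune

theorem restrictGate_var {K σ V : Type} (P : V → Prop) (g : Gate K σ V)
    (h : ∀ (j : Fin 2) (t : V), g.tail j = some t → P t) (i : σ)
    (hm : Pre.restrictGate P g h = Gate.var i) : g = Gate.var i := by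
  cases g with
  | var i' =>
    simp only [Pre.restrictGate, Gate.var.injEq] at hm
    rw [hm]
  | const c => simp [Pre.restrictGate] at hm
  | add a b => simp [Pre.restrictGate] at hm
  | mul a b => simp [Pre.restrictGate] at hm

theorem restrictGate_const {K σ V : Type} (P : V → Prop) (g : Gate K σ V)
    (h : ∀ (j : Fin 2) (t : V), g.tail j = some t → P t) (c : K)
    (hm : Pre.restrictGate P g h = Gate.const c) : g = Gate.const c := by
  cases g with
  | var i' => simp [Pre.restrictGate] at hm
  | const c' =>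
    simp only [Pre.restrictGate, Gate.const.injEq] at hm
    rw [hm]
  | add a b => simp [Pre.restrictGate] at hm
  | mul a b => simp [Pre.restrictGate] at hm

theorem restrictGate_add {K σ V : Type} (P : V → Prop) (g : Gate K σ V)
    (h : ∀ (j : Fin 2) (t : V), g.tail j = some t → P t) (a b : {x : V // P x})
    (hm : Pre.restrictGate P g h = Gate.add a b) : g = Gate.add a.1 b.1 := by
  cases g with
  | var i => simp [Pre.restrictGate] at hm
  | const c => simp [Pre.restrictGate] at hm
  | mul a b => simp [Pre.restrictGate] at hm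
  | add a' b' =>
    simp only [Pre.restrictGate, Gate.add.injEq] at hm
    obtain ⟨h1, h2⟩ := hm
    subst h1
    subst h2
    rfl

/-- set-multilinearity of a pre-circuit -/
def PSM {K : Type} [Zero K] {d n : ℕ} (D : Pre K (Fin d × Fin n)) : Prop :=
  ∃ S : D.V → Finset (Fin d), (∀ v i a, D.gate v = Gate.var (i, a) → S v = {i}) ∧
    (∀ v c, D.gate v = Gate.const c → c ≠ 0 → S v = ∅) ∧
    (∀ v a b, D.gate v = Gate.add a b → S a = S v ∧ S b = S v) ∧
    (∀ v a b, D.gate v = Gate.mul a b → Disjoint (S a) (S b) ∧ S v = S a ∪ S b)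

theorem prune_smc {K : Type} [Zero K] {d n : ℕ} (D : Pre K (Fin d × Fin n)) (o : D.V)
    (h : PSM D) : SMC (D.prune o) := by
  obtain ⟨S, h1, h2, h3, h4⟩ := h
  refine ⟨fun v => S v.1, ?_, ?_, ?_, ?_⟩
  · intro v i a hv
    exact h1 v.1 i a (restrictGate_var _ _ _ _ hv)
  · intro v c hv hc
    exact h2 v.1 c (restrictGate_const _ _ _ _ hv) hc
  · intro v a b hv
    exact h3 v.1 a.1 b.1 (restrictGate_add _ _ _ _ _ hv)
  · intro v a b hv
    exact h4 v.1 a.1 b.1 (Pre.restrictGate_mul _ _ _ _ _ hv)

end prune

/-! ### The circuit -/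

/-- the nodes -/
inductive Nd (S Q V : Type) (N : ℕ) : Type
  | a (X : S) (p : Q) (v : V) : Nd S Q V N
  | d (X : S) (p : Q) (v : V) : Nd S Q V N
  | e (X : S) (p : Q) (v : V) : Nd S Q V N
  | f (X : S) (p : Q) (v : V) : Nd S Q V N
  | acc (X : S) (v : V) (t : Fin (N + 1)) : Nd S Q V N

/-- code of the nodes -/
def code {S Q V : Type} {N : ℕ} : Nd S Q V N → ((S × V) × ((Fin 4 × Q) ⊕ Fin (N + 1)))
  | Nd.a X p v => ((X, v), Sum.inl (0, p))
  | Nd.d X p v => ((X, v), Sum.inl (1, p))
  | Nd.e X p v => ((X, v), Sum.inl (2, p))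
  | Nd.f X p v => ((X, v), Sum.inl (3, p))
  | Nd.acc X v t => ((X, v), Sum.inr t)

theorem code_inj {S Q V : Type} {N : ℕ} :
    Function.Injective (code (S := S) (Q := Q) (V := V) (N := N)) := by
  intro x y h
  cases x <;> cases y <;> simp_all [code]

noncomputable instance ndFin {S Q V : Type} {N : ℕ} [Fintype S] [Fintype Q] [Fintype V] :
    Fintype (Nd S Q V N) :=
  Fintype.ofInjective code code_inj

theorem card_nd {S Q V : Type} {N : ℕ} [Fintype S] [Fintype Q] [Fintype V] :
    Fintype.card (Nd S Q V N) ≤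
      Fintype.card S * Fintype.card V * (4 * Fintype.card Q + (N + 1)) := by
  refine (Fintype.card_le_of_injective code code_inj).trans ?_
  simp [Fintype.card_prod, Fintype.card_sum]

section circ

variable {d n W : ℕ} (F : Finset (Finset (Fin d)))
  (w : Finset (Fin d) → Fin d → Fin (W + 1) → Fin n → Fin (W + 1) → ℂ)

/-- the blocks of the circuit -/
abbrev Bl : Type := {X : Finset (Fin d) // X ∈ insert univ F}

/-- the indices of the terms: element, state, variable -/
abbrev Qu (d n W : ℕ) : Type := Fin d × (Fin (W + 1) × Fin n)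

/-- the number of the indices -/
abbrev NN (d n W : ℕ) : ℕ := d * ((W + 1) * n)

/-- the elements which occur in the sum -/
def Al (X : Finset (Fin d)) (i : Fin d) : Prop := i ∈ X.filter (fun i => X.erase i ∈ F)

instance (X : Finset (Fin d)) (i : Fin d) : Decidable (Al F X i) := by
  unfold Al
  infer_instance

theorem al_iff {X : Finset (Fin d)} {i : Fin d} : Al F X i ↔ i ∈ X ∧ X.erase i ∈ F := by
  unfold Al
  rw [mem_filter]

/-- enumeration of the indices -/
def en (s : Fin (NN d n W)) : Qu d n W :=
  ((finProdFinEquiv.symm s).1, finProdFinEquiv.symm (finProdFinEquiv.symm s).2)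

/-- the enumeration as an equivalence -/
def enE : Fin (NN d n W) ≃ Qu d n W :=
  finProdFinEquiv.symm.trans (Equiv.prodCongr (Equiv.refl _) finProdFinEquiv.symm)

theorem enE_apply (s : Fin (NN d n W)) : enE s = en s := rfl

/-- the nodes of our circuit -/
abbrev ND : Type := Nd (Bl F) (Qu d n W) (Fin (W + 1)) (NN d n W)

/-- the gates -/
noncomputable def gt : ND (n := n) (W := W) F → Gate ℂ (Fin d × Fin n) (ND (n := n) (W := W) F)
  | Nd.a _ p _ => Gate.var (p.1, p.2.2)
  | Nd.d X p v => Gate.const (w X.1 p.1 p.2.1 p.2.2 v)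
  | Nd.e X p v => Gate.mul (Nd.d X p v) (Nd.a X p v)
  | Nd.f X p v => if h : Al F X.1 p.1 then
      Gate.mul (Nd.e X p v) (Nd.acc ⟨X.1.erase p.1,
        mem_insert_of_mem ((al_iff F).1 h).2⟩ p.2.1 (Fin.last (NN d n W)))
      else Gate.const 0
  | Nd.acc X v t => Fin.cases (Gate.const (if X.1 = ∅ ∧ (v : ℕ) = 0 then 1 else 0))
      (fun s => Gate.add (Nd.acc X v s.castSucc) (Nd.f X (en s) v)) t

/-- the rank -/
def rk : ND (n := n) (W := W) F → ℕ
  | Nd.a X _ _ => X.1.card * (NN d n W + 8) + 0
  | Nd.d X _ _ => X.1.card * (NN d n W + 8) + 1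
  | Nd.e X _ _ => X.1.card * (NN d n W + 8) + 2
  | Nd.f X _ _ => X.1.card * (NN d n W + 8) + 3
  | Nd.acc X _ t => X.1.card * (NN d n W + 8) + 4 + t.1

theorem tail_add {V σ : Type} {x y : V} {j : Fin 2} {t : V}
    (h : (Gate.add x y : Gate ℂ σ V).tail j = some t) :
    (j = 0 ∧ t = x) ∨ (j = 1 ∧ t = y) := by
  simp only [Gate.tail, Option.some.injEq] at h
  by_cases hj : j = 0
  · rw [if_pos hj] at h
    exact Or.inl ⟨hj, h.symm⟩
  · rw [if_neg hj] at h
    refine Or.inr ⟨?_, h.symm⟩
    omega

theorem tail_mul {V σ : Type} {x y : V} {j : Fin 2} {t : V}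
    (h : (Gate.mul x y : Gate ℂ σ V).tail j = some t) :
    (j = 0 ∧ t = x) ∨ (j = 1 ∧ t = y) := by
  simp only [Gate.tail, Option.some.injEq] at h
  by_cases hj : j = 0
  · rw [if_pos hj] at h
    exact Or.inl ⟨hj, h.symm⟩
  · rw [if_neg hj] at h
    refine Or.inr ⟨?_, h.symm⟩
    omega

theorem tail_var {V σ : Type} {i : σ} {j : Fin 2} {t : V}
    (h : (Gate.var i : Gate ℂ σ V).tail j = some t) : False := by
  simp [Gate.tail] at h

theorem tail_const {V σ : Type} {c : ℂ} {j : Fin 2} {t : V}
    (h : (Gate.const c : Gate ℂ σ V).tail j = some t) : False := by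
  simp [Gate.tail] at h

/-- the edges -/
inductive Ed : ND (n := n) (W := W) F → Fin 2 → ND (n := n) (W := W) F → Prop
  | ed (X p v) : Ed (Nd.d X p v) 0 (Nd.e X p v)
  | ea (X p v) : Ed (Nd.a X p v) 1 (Nd.e X p v)
  | fe (X p v) (h : Al F X.1 p.1) : Ed (Nd.e X p v) 0 (Nd.f X p v)
  | fa (X) (p : Qu d n W) (v) (Y : Bl F) (h : Al F X.1 p.1) (hY : Y.1 = X.1.erase p.1) :
      Ed (Nd.acc Y p.2.1 (Fin.last (NN d n W))) 1 (Nd.f X p v)
  | aa (X v) (s : Fin (NN d n W)) : Ed (Nd.acc X v s.castSucc) 0 (Nd.acc X v s.succ)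
  | af (X v) (s : Fin (NN d n W)) : Ed (Nd.f X (en s) v) 1 (Nd.acc X v s.succ)

theorem ed_of {v : ND (n := n) (W := W) F} {j : Fin 2} {t : ND (n := n) (W := W) F}
    (h : (gt F w v).tail j = some t) : Ed F t j v := by
  cases v with
  | a X p v => exact (tail_var h).elim
  | d X p v => exact (tail_const h).elim
  | e X p v =>
    rcases tail_mul h with ⟨rfl, rfl⟩ | ⟨rfl, rfl⟩
    · exact Ed.ed X p v
    · exact Ed.ea X p v
  | f X p v =>
    by_cases ha : Al F X.1 p.1
    · rw [gt, dif_pos ha] at h
      rcases tail_mul h with ⟨rfl, rfl⟩ | ⟨rfl, rfl⟩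
      · exact Ed.fe X p v ha
      · exact Ed.fa X p v _ ha rfl
    · rw [gt, dif_neg ha] at h
      exact (tail_const h).elim
  | acc X v t' =>
    rw [gt] at h
    induction t' using Fin.cases with
    | zero =>
      rw [Fin.cases_zero] at h
      exact (tail_const h).elim
    | succ s =>
      rw [Fin.cases_succ] at h
      rcases tail_add h with ⟨rfl, rfl⟩ | ⟨rfl, rfl⟩
      · exact Ed.aa X v s
      · exact Ed.af X v s

theorem card_lt {X : Finset (Fin d)} {i : Fin d} (h : Al F X i) :
    (X.erase i).card + 1 = X.card := card_erase_add_one ((al_iff F).1 h).1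

theorem rk_lt {s t : ND (n := n) (W := W) F} {j : Fin 2} (h : Ed F s j t) :
    rk F s < rk F t := by
  cases h with
  | ed X p v => simp only [rk]; omega
  | ea X p v => simp only [rk]; omega
  | fe X p v h => simp only [rk]; omega
  | fa X p v Y h hY =>
    simp only [rk, Fin.val_last]
    have h1 := card_lt F h
    rw [hY]
    have h2 : X.1.card * (NN d n W + 8) =
        (X.1.erase p.1).card * (NN d n W + 8) + (NN d n W + 8) := by
      rw [← h1]
      ring
    omega
  | aa X v s => simp only [rk, Fin.val_castSucc, Fin.val_succ]; omega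
  | af X v s => simp only [rk, Fin.val_succ]; omega

/-- the pre-circuit -/
noncomputable def pc : Pre ℂ (Fin d × Fin n) where
  V := ND (n := n) (W := W) F
  fin := inferInstance
  gate := gt F w
  acyclic := ⟨rk F, fun _ _ _ h => rk_lt F (ed_of F w h)⟩

/-- the terms -/
noncomputable def term (X : Finset (Fin d)) (v : Fin (W + 1)) (p : Qu d n W) :
    MvPolynomial (Fin d × Fin n) ℂ :=
  if Al F X p.1 then
    C (w X p.1 p.2.1 p.2.2 v) * MvPolynomial.X (p.1, p.2.2) *
      QQ F w (X.erase p.1).card (X.erase p.1) p.2.1 else 0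

/-- the values -/
noncomputable def vl : ND (n := n) (W := W) F → MvPolynomial (Fin d × Fin n) ℂ
  | Nd.a _ p _ => MvPolynomial.X (p.1, p.2.2)
  | Nd.d X p v => C (w X.1 p.1 p.2.1 p.2.2 v)
  | Nd.e X p v => C (w X.1 p.1 p.2.1 p.2.2 v) * MvPolynomial.X (p.1, p.2.2)
  | Nd.f X p v => term F w X.1 v p
  | Nd.acc X v t => (if X.1 = ∅ ∧ (v : ℕ) = 0 then 1 else 0) +
      ∑ s : Fin (NN d n W), if s.1 < t.1 then term F w X.1 v (en s) else 0

theorem acc_last (X : Finset (Fin d)) (v : Fin (W + 1)) :
    (if X = ∅ ∧ (v : ℕ) = 0 then 1 else 0 : MvPolynomial (Fin d × Fin n) ℂ) +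
    ∑ s : Fin (NN d n W), term F w X v (en s) = QQ F w X.card X v := by
  have h1 : ∑ s : Fin (NN d n W), term F w X v (en s) = ∑ p : Qu d n W, term F w X v p :=
    Equiv.sum_comp enE (fun p => term F w X v p)
  rw [h1, Fintype.sum_prod_type]
  rcases Nat.eq_zero_or_pos X.card with h2 | h2
  · rw [h2, QQ]
    have h4 : ∀ i : Fin d, ∑ q, term F w X v (i, q) = 0 := by
      intro i
      refine Finset.sum_eq_zero fun q _ => ?_
      rw [term, if_neg]
      intro h
      have := card_lt F h
      simp only at this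
      omega
    rw [Finset.sum_eq_zero fun p _ => h4 p, add_zero]
  · obtain ⟨j, hj⟩ : ∃ j, X.card = j + 1 := ⟨X.card - 1, by omega⟩
    have hne : X ≠ ∅ := by
      rintro rfl
      simp at h2
    rw [hj, QQ, if_neg (fun h => hne h.1), zero_add, ← Finset.sum_filter_add_sum_filter_not
      (univ : Finset (Fin d)) (fun i => i ∈ X.filter (fun i => X.erase i ∈ F))]
    have h5 : ∑ i ∈ (univ : Finset (Fin d)).filter
        (fun i => ¬ i ∈ X.filter (fun i => X.erase i ∈ F)), ∑ q, term F w X v (i, q) = 0 := by
      refine Finset.sum_eq_zero fun i hi => Finset.sum_eq_zero fun q _ => ?_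
      rw [mem_filter] at hi
      rw [term, if_neg]
      exact hi.2
    rw [h5, add_zero]
    have h6 : (univ : Finset (Fin d)).filter
        (fun i => i ∈ X.filter (fun i => X.erase i ∈ F)) = X.filter (fun i => X.erase i ∈ F) := by
      ext p
      simp
    rw [h6]
    refine Finset.sum_congr rfl fun i hi => ?_
    rw [Fintype.sum_prod_type]
    refine Finset.sum_congr rfl fun u _ => Finset.sum_congr rfl fun a _ => ?_
    have hA : Al F X ((i, u, a) : Qu d n W).1 := hi
    rw [term, if_pos hA]
    have h8 := card_lt F (X := X) (i := i) hi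
    have h7 : (X.erase i).card = j := by omega
    simp only
    rw [h7]

theorem isVal : (pc F w).IsVal (vl F w) := by
  intro v
  change vl F w v = (gt F w v).value (vl F w)
  cases v with
  | a X p v => rfl
  | d X p v => rfl
  | e X p v => rfl
  | f X p v =>
    rw [gt]
    by_cases ha : Al F X.1 p.1
    · rw [dif_pos ha]
      simp only [vl, Gate.value]
      have h1 : ∑ s : Fin (NN d n W), (if s.1 < (Fin.last (NN d n W)).1 then
          term F w (X.1.erase p.1) p.2.1 (en s) else 0) =
          ∑ s : Fin (NN d n W), term F w (X.1.erase p.1) p.2.1 (en s) := by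
        refine Finset.sum_congr rfl fun s _ => ?_
        rw [if_pos]
        rw [Fin.val_last]
        exact s.2
      rw [h1, acc_last, term, if_pos ha]
    · rw [dif_neg ha]
      simp only [vl, Gate.value, term, if_neg ha, C_0]
  | acc X v t =>
    rw [gt]
    induction t using Fin.cases with
    | zero =>
      rw [Fin.cases_zero]
      simp only [vl, Gate.value]
      have h1 : ∑ s : Fin (NN d n W), (if s.1 < (0 : Fin (NN d n W + 1)).1 then
          term F w X.1 v (en s) else 0) = 0 := by
        refine Finset.sum_eq_zero fun s _ => ?_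
        rw [if_neg]
        simp
      rw [h1, add_zero]
      split_ifs <;> simp
    | succ t =>
      rw [Fin.cases_succ]
      simp only [vl, Gate.value, Fin.val_succ, Fin.val_castSucc]
      rw [add_assoc]
      congr 1
      have h1 : term F w X.1 v (en t) =
          ∑ s : Fin (NN d n W), if s = t then term F w X.1 v (en s) else 0 := by
        simp
      rw [h1, ← Finset.sum_add_distrib]
      refine Finset.sum_congr rfl fun s _ => ?_
      rcases lt_trichotomy s.1 t.1 with h | h | h
      · rw [if_pos (by omega), if_pos h, if_neg (fun hs => by rw [hs] at h; omega), add_zero]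
      · rw [if_pos (by omega), if_neg (by omega), if_pos (Fin.ext h), zero_add]
      · rw [if_neg (by omega), if_neg (by omega), if_neg (fun hs => by rw [hs] at h; omega), add_zero]

/-- the nodes below the inner product node -/
def low (X : Bl F) (p : Qu d n W) (v : Fin (W + 1)) (s : ND (n := n) (W := W) F) : Prop :=
  s = Nd.a X p v ∨ s = Nd.d X p v ∨ s = Nd.e X p v

theorem low_step {X : Bl F} {p : Qu d n W} {v : Fin (W + 1)} {s t : ND (n := n) (W := W) F}
    {j : Fin 2} (h : Ed F s j t) (ht : low F X p v t) : low F X p v s := by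
  unfold low at ht ⊢
  cases h with
  | ed X' p' v' => simp_all
  | ea X' p' v' => simp_all
  | fe X' p' v' h => simp_all
  | fa X' p' v' Y h hY => simp_all
  | aa X' v' s => simp_all
  | af X' v' s => simp_all

theorem low_path {X : Bl F} {p : Qu d n W} {v : Fin (W + 1)} {s t : ND (n := n) (W := W) F}
    (h : (pc F w).Path s t) (ht : low F X p v t) : low F X p v s := by
  induction h using Relation.ReflTransGen.head_induction_on with
  | refl => exact ht
  | head h1 _ ih =>
    obtain ⟨j, hj⟩ := h1
    exact low_step F (ed_of F w hj) ih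

theorem path_d {X : Bl F} {p : Qu d n W} {v : Fin (W + 1)} {s : ND (n := n) (W := W) F}
    (h : (pc F w).Path s (Nd.d X p v)) : s = Nd.d X p v := by
  rcases Relation.ReflTransGen.cases_tail h with h1 | ⟨c, _, h2⟩
  · exact h1.symm
  · obtain ⟨j, hj⟩ := h2
    have h3 : Ed F c j (Nd.d X p v) := ed_of F w hj
    cases h3

/-- the multiplication gates -/
theorem mul_cases {g a b : ND (n := n) (W := W) F} (h : gt F w g = Gate.mul a b) :
    (∃ X p v, g = Nd.e X p v ∧ a = Nd.d X p v ∧ b = Nd.a X p v) ∨
    (∃ (X : Bl F) (p : Qu d n W) (v : Fin (W + 1)) (Y : Bl F), Al F X.1 p.1 ∧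
      Y.1 = X.1.erase p.1 ∧ g = Nd.f X p v ∧
      a = Nd.e X p v ∧ b = Nd.acc Y p.2.1 (Fin.last (NN d n W))) := by
  cases g with
  | a X p v => simp [gt] at h
  | d X p v => simp [gt] at h
  | e X p v =>
    simp only [gt, Gate.mul.injEq] at h
    exact Or.inl ⟨X, p, v, rfl, h.1.symm, h.2.symm⟩
  | f X p v =>
    rw [gt] at h
    by_cases ha : Al F X.1 p.1
    · rw [dif_pos ha] at h
      simp only [Gate.mul.injEq] at h
      exact Or.inr ⟨X, p, v, _, ha, rfl, rfl, h.1.symm, h.2.symm⟩
    · rw [dif_neg ha] at h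
      simp at h
  | acc X v t =>
    rw [gt] at h
    induction t using Fin.cases with
    | zero =>
      rw [Fin.cases_zero] at h
      simp at h
    | succ s =>
      rw [Fin.cases_succ] at h
      simp at h

theorem weaklySkew : (pc F w).WeaklySkew := by
  intro g a b hg
  rcases mul_cases F w hg with ⟨X, p, v, rfl, rfl, rfl⟩ | ⟨X, p, v, Y, ha, hY, rfl, rfl, rfl⟩
  · refine ⟨0, Nd.d X p v, rfl, ?_⟩
    intro v' k s hs hst _
    have h1 := path_d F w hst
    subst h1
    have h2 := ed_of F w hs
    cases h2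
    exact ⟨rfl, rfl⟩
  · refine ⟨0, Nd.e X p v, ?_, ?_⟩
    · have hg' : (pc F w).gate (Nd.f X p v) =
          Gate.mul (Nd.e X p v) (Nd.acc Y p.2.1 (Fin.last (NN d n W))) := hg
      rw [hg']
      rfl
    · intro v' k s hs hst hv
      have h1 : low F X p v s := low_path F w hst (by unfold low; simp)
      have h2 := ed_of F w hs
      rcases h1 with rfl | rfl | rfl
      · cases h2
        exact (hv Relation.ReflTransGen.refl).elim
      · cases h2
        exact (hv Relation.ReflTransGen.refl).elim
      · cases h2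
        exact ⟨rfl, rfl⟩

/-- the indices of the variables below a node -/
def vs : ND (n := n) (W := W) F → Finset (Fin d)
  | Nd.a _ p _ => {p.1}
  | Nd.d _ _ _ => ∅
  | Nd.e _ p _ => {p.1}
  | Nd.f X _ _ => X.1
  | Nd.acc X _ _ => X.1

theorem sm1 (s : ND (n := n) (W := W) F) (i : Fin d) (a : Fin n)
    (h : gt F w s = Gate.var (i, a)) : vs F s = {i} := by
  cases s with
  | a X p v =>
    simp only [gt, Gate.var.injEq, Prod.mk.injEq] at h
    simp [vs, h.1]
  | d X p v => simp [gt] at h
  | e X p v => simp [gt] at h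
  | f X p v =>
    rw [gt] at h
    by_cases ha : Al F X.1 p.1
    · rw [dif_pos ha] at h
      simp at h
    · rw [dif_neg ha] at h
      simp at h
  | acc X v t =>
    rw [gt] at h
    induction t using Fin.cases with
    | zero =>
      rw [Fin.cases_zero] at h
      simp at h
    | succ s =>
      rw [Fin.cases_succ] at h
      simp at h

theorem sm2 (s : ND (n := n) (W := W) F) (c : ℂ)
    (h : gt F w s = Gate.const c) (hc : c ≠ 0) : vs F s = ∅ := by
  cases s with
  | a X p v => simp [gt] at h
  | d X p v => rfl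
  | e X p v => simp [gt] at h
  | f X p v =>
    rw [gt] at h
    by_cases ha : Al F X.1 p.1
    · rw [dif_pos ha] at h
      simp at h
    · rw [dif_neg ha] at h
      simp only [Gate.const.injEq] at h
      exact (hc h.symm).elim
  | acc X v t =>
    rw [gt] at h
    induction t using Fin.cases with
    | zero =>
      rw [Fin.cases_zero] at h
      simp only [Gate.const.injEq] at h
      by_cases hX : X.1 = ∅ ∧ (v : ℕ) = 0
      · exact hX.1
      · rw [if_neg hX] at h
        exact (hc h.symm).elim
    | succ s =>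
      rw [Fin.cases_succ] at h
      simp at h

theorem sm3 (s a b : ND (n := n) (W := W) F)
    (h : gt F w s = Gate.add a b) : vs F a = vs F s ∧ vs F b = vs F s := by
  cases s with
  | a X p v => simp [gt] at h
  | d X p v => simp [gt] at h
  | e X p v => simp [gt] at h
  | f X p v =>
    rw [gt] at h
    by_cases ha : Al F X.1 p.1
    · rw [dif_pos ha] at h
      simp at h
    · rw [dif_neg ha] at h
      simp at h
  | acc X v t =>
    rw [gt] at h
    induction t using Fin.cases with
    | zero =>
      rw [Fin.cases_zero] at h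
      simp at h
    | succ s =>
      rw [Fin.cases_succ] at h
      simp only [Gate.add.injEq] at h
      obtain ⟨rfl, rfl⟩ := h
      exact ⟨rfl, rfl⟩

theorem sm4 (s a b : ND (n := n) (W := W) F)
    (h : gt F w s = Gate.mul a b) : Disjoint (vs F a) (vs F b) ∧ vs F s = vs F a ∪ vs F b := by
  rcases mul_cases F w h with ⟨X, p, v, rfl, rfl, rfl⟩ | ⟨X, p, v, Y, ha, hY, rfl, rfl, rfl⟩
  · simp [vs]
  · have h1 := (al_iff F).1 ha
    simp only [vs, hY]
    constructor
    · rw [Finset.disjoint_singleton_left]
      exact notMem_erase _ _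
    · ext x
      simp only [mem_union, mem_singleton, mem_erase]
      constructor
      · intro hx
        by_cases hxp : x = p.1
        · exact Or.inl hxp
        · exact Or.inr ⟨hxp, hx⟩
      · rintro (rfl | hx)
        · exact h1.1
        · exact hx.2

theorem psm : PSM (pc F w) :=
  ⟨vs F, sm1 F w, sm2 F w, sm3 F w, sm4 F w⟩

end circ

end Ciq

open Ciq in
theorem ciq_thm : CIQStmt := by
  intro d n W F w
  let o : (pc F w).V := Nd.acc ⟨univ, mem_insert_self _ _⟩ 0 (Fin.last (NN d n W))
  refine ⟨(pc F w).prune o, Pre.prune_weaklySkew _ _ (weaklySkew F w), prune_smc _ _ (psm F w),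
    ?_, ?_⟩
  · have h1 := Pre.prune_computes (pc F w) o (vl F w) (isVal F w)
    have h2 : vl F w o = QQ F w d univ 0 := by
      simp only [o, vl]
      have h3 : ∑ s : Fin (NN d n W), (if s.1 < (Fin.last (NN d n W)).1 then
          term F w univ 0 (en s) else 0) = ∑ s : Fin (NN d n W), term F w univ 0 (en s) := by
        refine Finset.sum_congr rfl fun s _ => ?_
        rw [if_pos]
        rw [Fin.val_last]
        exact s.2
      rw [h3, acc_last, card_univ, Fintype.card_fin]
    rw [h2] at h1
    exact h1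
  · refine (Pre.prune_size_le _ _).trans ?_
    have h1 : @Fintype.card (pc F w).V (pc F w).fin =
      Fintype.card (ND (n := n) (W := W) F) := rfl
    rw [h1]
    refine card_nd.trans ?_
    have h2 : Fintype.card (Bl F) ≤ F.card + 1 := by
      have h3 : Fintype.card (Bl F) = (insert univ F).card := by simp
      rw [h3]
      exact card_insert_le _ _
    have h4 : Fintype.card (Qu d n W) = NN d n W := by simp [NN]
    rw [h4, Fintype.card_fin]
    calc Fintype.card (Bl F) * (W + 1) * (4 * NN d n W + (NN d n W + 1))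
        ≤ (F.card + 1) * (W + 1) * (4 * NN d n W + (NN d n W + 1)) :=
          Nat.mul_le_mul_right _ (Nat.mul_le_mul_right _ h2)
      _ ≤ (F.card + 1) * (W + 1) * (8 * (d + 1) * (n + 1) * (W + 1)) := by
          refine Nat.mul_le_mul_left _ ?_
          unfold NN
          nlinarith [Nat.zero_le (d * n * W), Nat.zero_le (d * n), Nat.zero_le (d * W),
            Nat.zero_le (n * W), Nat.zero_le d, Nat.zero_le n, Nat.zero_le W]
      _ = 8 * (F.card + 1) * (d + 1) * (n + 1) * (W + 1) ^ 2 := by ring

end Pool.Agent.H5.FR2
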