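import Pool.Agent.H5.FR2.Stmts

/-!
# Project URB, module HNF: the Harder-Narasimhan filtration of a tuple of matrices
-/

set_option autoImplicit false
set_option linter.unusedSectionVars false

open Finset

namespace Pool.Agent.H5.FR2

open Pool.Agent.H5.FR Pool.Agent.H80

namespace Hnf

/-! ### Transfer of semistability along bijections -/

theorem ss_equiv {n : ℕ} {X Y X' Y' : Type} [Fintype X] [Fintype Y] [Fintype X'] [Fintype Y']
    (e : X' ≃ X) (f : Y' ≃ Y) (B : Fin n → Matrix X Y ℂ) (B' : Fin n → Matrix X' Y' ℂ)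
    (h : ∀ a i j, B' a i j = B a (e i) (f j)) (hB : SS B) : SS B' := by
  intro U
  let F : (Y' → ℂ) ≃ₗ[ℂ] (Y → ℂ) := LinearEquiv.funCongrLeft ℂ ℂ f.symm
  let G : (X → ℂ) ≃ₗ[ℂ] (X' → ℂ) := LinearEquiv.funCongrLeft ℂ ℂ e
  have h1 := hB (U.map (F : (Y' → ℂ) →ₗ[ℂ] (Y → ℂ)))
  rw [LinearEquiv.finrank_map_eq F U] at h1
  have hc : ∀ a, (G : (X → ℂ) →ₗ[ℂ] (X' → ℂ)) ∘ₗ ((Matrix.mulVecLin (B a)) ∘ₗ
      (F : (Y' → ℂ) →ₗ[ℂ] (Y → ℂ))) = Matrix.mulVecLin (B' a) := by
    intro a
    apply LinearMap.ext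
    intro u
    funext i
    change (B a).mulVec (fun y => u (f.symm y)) (e i) = (B' a).mulVec u i
    simp only [Matrix.mulVec, dotProduct]
    rw [← Equiv.sum_comp f]
    refine Finset.sum_congr rfl fun y _ => ?_
    rw [h a i y, Equiv.symm_apply_apply]
  have h2 : (img B (U.map (F : (Y' → ℂ) →ₗ[ℂ] (Y → ℂ)))).map
      (G : (X → ℂ) →ₗ[ℂ] (X' → ℂ)) = img B' U := by
    unfold img
    rw [Submodule.map_iSup]
    refine iSup_congr fun a => ?_
    rw [← Submodule.map_comp, ← Submodule.map_comp, LinearMap.comp_assoc, hc a]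
  rw [← h2, LinearEquiv.finrank_map_eq G]
  rw [Fintype.card_congr e, Fintype.card_congr f]
  exact h1

/-! ### Block diagonal matrices -/

section dg

variable {X Y : Type} [Fintype X] [DecidableEq X]

/-- the block diagonal matrix `1 ⊕ P` -/
def dg (X₀ : Finset X) (P : Matrix {i // i ∉ X₀} {i // i ∉ X₀} ℂ) : Matrix X X ℂ :=
  (Matrix.fromBlocks (1 : Matrix {i // i ∈ X₀} {i // i ∈ X₀} ℂ) 0 0 P).submatrix
    (Equiv.sumCompl (fun i => i ∈ X₀)).symm (Equiv.sumCompl (fun i => i ∈ X₀)).symm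

theorem dg_unit (X₀ : Finset X) (P : Matrix {i // i ∉ X₀} {i // i ∉ X₀} ℂ) (hP : IsUnit P) :
    IsUnit (dg X₀ P) := by
  rw [Matrix.isUnit_iff_isUnit_det] at hP ⊢
  unfold dg
  rw [Matrix.det_submatrix_equiv_self, Matrix.det_fromBlocks_zero₁₂, Matrix.det_one, one_mul]
  exact hP

theorem sum_split {M : Type*} [AddCommMonoid M] (X₀ : Finset X) (g : X → M) :
    ∑ k, g k = ∑ k : {i // i ∈ X₀}, g k + ∑ k : {i // i ∉ X₀}, g k := by
  rw [← Equiv.sum_comp (Equiv.sumCompl (fun i => i ∈ X₀)), Fintype.sum_sum_type]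
  rfl

theorem dg_ii (X₀ : Finset X) (P : Matrix {i // i ∉ X₀} {i // i ∉ X₀} ℂ)
    (i k : {i // i ∈ X₀}) : dg X₀ P i.1 k.1 = if i = k then 1 else 0 := by
  unfold dg
  rw [Matrix.submatrix_apply, Equiv.sumCompl_symm_apply_of_pos i.2,
    Equiv.sumCompl_symm_apply_of_pos k.2, Matrix.fromBlocks_apply₁₁, Matrix.one_apply]

theorem dg_io (X₀ : Finset X) (P : Matrix {i // i ∉ X₀} {i // i ∉ X₀} ℂ)
    (i : {i // i ∈ X₀}) (k : {i // i ∉ X₀}) : dg X₀ P i.1 k.1 = 0 := by
  unfold dg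
  rw [Matrix.submatrix_apply, Equiv.sumCompl_symm_apply_of_pos i.2,
    Equiv.sumCompl_symm_apply_of_neg k.2, Matrix.fromBlocks_apply₁₂]
  rfl

theorem dg_oi (X₀ : Finset X) (P : Matrix {i // i ∉ X₀} {i // i ∉ X₀} ℂ)
    (i : {i // i ∉ X₀}) (k : {i // i ∈ X₀}) : dg X₀ P i.1 k.1 = 0 := by
  unfold dg
  rw [Matrix.submatrix_apply, Equiv.sumCompl_symm_apply_of_neg i.2,
    Equiv.sumCompl_symm_apply_of_pos k.2, Matrix.fromBlocks_apply₂₁]
  rfl

theorem dg_oo (X₀ : Finset X) (P : Matrix {i // i ∉ X₀} {i // i ∉ X₀} ℂ)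
    (i k : {i // i ∉ X₀}) : dg X₀ P i.1 k.1 = P i k := by
  unfold dg
  rw [Matrix.submatrix_apply, Equiv.sumCompl_symm_apply_of_neg i.2,
    Equiv.sumCompl_symm_apply_of_neg k.2, Matrix.fromBlocks_apply₂₂]

theorem dg_mul_in (X₀ : Finset X) (P : Matrix {i // i ∉ X₀} {i // i ∉ X₀} ℂ)
    (M : Matrix X Y ℂ) (i : {i // i ∈ X₀}) (j : Y) : (dg X₀ P * M) i.1 j = M i.1 j := by
  rw [Matrix.mul_apply, sum_split X₀]
  simp only [dg_ii, dg_io, zero_mul, Finset.sum_const_zero, add_zero, ite_mul, one_mul,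
    Finset.sum_ite_eq, Finset.mem_univ, if_true]

theorem dg_mul_out (X₀ : Finset X) (P : Matrix {i // i ∉ X₀} {i // i ∉ X₀} ℂ)
    (M : Matrix X Y ℂ) (i : {i // i ∉ X₀}) (j : Y) :
    (dg X₀ P * M) i.1 j = ∑ k : {i // i ∉ X₀}, P i k * M k.1 j := by
  rw [Matrix.mul_apply, sum_split X₀]
  simp only [dg_oi, dg_oo, zero_mul, Finset.sum_const_zero, zero_add]

theorem mul_dg_in (X₀ : Finset X) (P : Matrix {i // i ∉ X₀} {i // i ∉ X₀} ℂ)
    (M : Matrix Y X ℂ) (i : Y) (j : {i // i ∈ X₀}) : (M * dg X₀ P) i j.1 = M i j.1 := by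
  rw [Matrix.mul_apply, sum_split X₀]
  simp only [dg_ii, dg_oi, mul_zero, Finset.sum_const_zero, add_zero, mul_ite, mul_one,
    Finset.sum_ite_eq', Finset.mem_univ, if_true]

theorem mul_dg_out (X₀ : Finset X) (P : Matrix {i // i ∉ X₀} {i // i ∉ X₀} ℂ)
    (M : Matrix Y X ℂ) (i : Y) (j : {i // i ∉ X₀}) :
    (M * dg X₀ P) i j.1 = ∑ k : {i // i ∉ X₀}, M i k.1 * P k j := by
  rw [Matrix.mul_apply, sum_split X₀]
  simp only [dg_io, dg_oo, mul_zero, Finset.sum_const_zero, zero_add]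

end dg

/-! ### Labels -/

section lab

variable {X : Type} [Fintype X] [DecidableEq X]

/-- the labels -/
def lab (X₀ : Finset X) (r : {i // i ∉ X₀} → ℕ) (i : X) : ℕ :=
  if h : i ∈ X₀ then 0 else r ⟨i, h⟩ + 1

theorem lab_in {X₀ : Finset X} {r : {i // i ∉ X₀} → ℕ} {i : X} (h : i ∈ X₀) :
    lab X₀ r i = 0 := dif_pos h

theorem lab_out {X₀ : Finset X} {r : {i // i ∉ X₀} → ℕ} {i : X} (h : i ∉ X₀) :
    lab X₀ r i = r ⟨i, h⟩ + 1 := dif_neg h

theorem lab_zero {X₀ : Finset X} {r : {i // i ∉ X₀} → ℕ} {i : X} :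
    lab X₀ r i = 0 ↔ i ∈ X₀ := by
  constructor
  · intro h
    by_contra hi
    rw [lab_out hi] at h
    omega
  · exact lab_in

/-- the elements with label `0` -/
def e0 (X₀ : Finset X) (r : {i // i ∉ X₀} → ℕ) : {i // lab X₀ r i = 0} ≃ {i // i ∈ X₀} :=
  Equiv.subtypeEquivRight fun _ => lab_zero

theorem not_mem_of_lab {X₀ : Finset X} {r : {i // i ∉ X₀} → ℕ} {J : ℕ} {i : X}
    (h : lab X₀ r i = J + 1) : i ∉ X₀ := by
  intro hi
  rw [lab_in hi] at h
  omega

/-- the elements with label `J + 1` -/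
def eS (X₀ : Finset X) (r : {i // i ∉ X₀} → ℕ) (J : ℕ) :
    {i // lab X₀ r i = J + 1} ≃ {x : {i // i ∉ X₀} // r x = J} where
  toFun i := ⟨⟨i.1, not_mem_of_lab i.2⟩, by
    have h := i.2
    rw [lab_out (not_mem_of_lab i.2)] at h
    omega⟩
  invFun x := ⟨x.1.1, by rw [lab_out x.1.2]; exact congrArg (· + 1) x.2⟩
  left_inv i := rfl
  right_inv x := rfl

theorem card0 (X₀ : Finset X) (r : {i // i ∉ X₀} → ℕ) :
    Fintype.card {i // lab X₀ r i = 0} = X₀.card := by
  rw [Fintype.card_congr (e0 X₀ r), Fintype.card_coe]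

theorem cardS (X₀ : Finset X) (r : {i // i ∉ X₀} → ℕ) (J : ℕ) :
    Fintype.card {i // lab X₀ r i = J + 1} = Fintype.card {x : {i // i ∉ X₀} // r x = J} :=
  Fintype.card_congr (eS X₀ r J)

end lab

/-! ### The slopes -/

theorem range_card {X : Type} [Fintype X] (r : X → ℕ) (J : ℕ) :
    Fintype.card {i // r i ≤ J} = ∑ I ∈ range (J + 1), Fintype.card {i // r i = I} := by
  classical
  have h1 : ∀ I, Fintype.card {i // r i = I} = (univ.filter (fun i => r i = I)).card := fun I =>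
    Fintype.card_subtype _
  rw [Fintype.card_subtype, Finset.sum_congr rfl fun I _ => h1 I]
  rw [Finset.card_eq_sum_card_fiberwise (f := r) (t := range (J + 1))]
  · refine Finset.sum_congr rfl fun I hI => ?_
    congr 1
    ext i
    simp only [mem_filter, mem_univ, true_and, mem_range] at hI ⊢
    omega
  · intro i hi
    simp only [coe_filter, mem_univ, true_and, Set.mem_ofPred_eq, coe_range, Set.mem_Iio] at hi ⊢
    omega

/-- the dimensions of the coordinate subspaces -/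
theorem dims {n : ℕ} {X Y : Type} [Fintype X] [DecidableEq X] [Fintype Y] [DecidableEq Y]
    (C : Fin n → Matrix X Y ℂ) (P : Matrix X X ℂ) (Q : Matrix Y Y ℂ) (r : X → ℕ) (c : Y → ℕ)
    (hP : IsUnit P) (hQ : IsUnit Q) (h0 : ∀ a i j, c j < r i → (P * C a * Q) i j = 0)
    (x₀ y₀ : ℕ) (hU : ∀ U : Submodule ℂ (Y → ℂ), x₀ * Module.finrank ℂ U ≤
      y₀ * Module.finrank ℂ (img C U)) (J : ℕ) :
    x₀ * Fintype.card {j // c j ≤ J} ≤ y₀ * Fintype.card {i // r i ≤ J} := by
  classical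
  let eY : ({j // c j ≤ J} → ℂ) →ₗ[ℂ] (Y → ℂ) :=
    Function.ExtendByZero.linearMap ℂ (Subtype.val : {j // c j ≤ J} → Y)
  let eX : ({i // r i ≤ J} → ℂ) →ₗ[ℂ] (X → ℂ) :=
    Function.ExtendByZero.linearMap ℂ (Subtype.val : {i // r i ≤ J} → X)
  have heY : ∀ u (j : {j // c j ≤ J}), eY u j.1 = u j := by
    intro u j
    exact Subtype.val_injective.extend_apply _ _ _
  have heY0 : ∀ u j, ¬ c j ≤ J → eY u j = 0 := by
    intro u j hj
    refine Function.extend_apply' _ _ _ ?_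
    rintro ⟨k, rfl⟩
    exact hj k.2
  have heX : ∀ u (j : {i // r i ≤ J}), eX u j.1 = u j := by
    intro u j
    exact Subtype.val_injective.extend_apply _ _ _
  have heX0 : ∀ u j, ¬ r j ≤ J → eX u j = 0 := by
    intro u j hj
    refine Function.extend_apply' _ _ _ ?_
    rintro ⟨k, rfl⟩
    exact hj k.2
  have hinj : Function.Injective eY := by
    intro u v huv
    funext j
    rw [← heY u j, ← heY v j, huv]
  let U : Submodule ℂ (Y → ℂ) := LinearMap.range ((Matrix.mulVecLin Q) ∘ₗ eY)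
  have hQi : Function.Injective (Matrix.mulVecLin Q) := Matrix.mulVec_injective_iff_isUnit.2 hQ
  have hUd : Module.finrank ℂ U = Fintype.card {j // c j ≤ J} := by
    have h1 : Function.Injective ((Matrix.mulVecLin Q) ∘ₗ eY) := hQi.comp hinj
    rw [show Module.finrank ℂ U = Module.finrank ℂ (LinearMap.range ((Matrix.mulVecLin Q) ∘ₗ eY))
      from rfl, LinearMap.finrank_range_of_inj h1, Module.finrank_fintype_fun_eq_card]
  have hW : img C U ≤ LinearMap.range ((Matrix.mulVecLin P⁻¹) ∘ₗ eX) := by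
    unfold img
    refine iSup_le fun a => ?_
    rintro _ ⟨_, ⟨u, rfl⟩, rfl⟩
    refine ⟨fun i => (P.mulVec ((C a).mulVec (Q.mulVec (eY u)))) i.1, ?_⟩
    have h2 : eX (fun i => (P.mulVec ((C a).mulVec (Q.mulVec (eY u)))) i.1) =
        P.mulVec ((C a).mulVec (Q.mulVec (eY u))) := by
      funext i
      by_cases hi : r i ≤ J
      · exact heX _ ⟨i, hi⟩
      · rw [heX0 _ _ hi, Matrix.mulVec_mulVec, Matrix.mulVec_mulVec]
        symm
        rw [Matrix.mulVec, dotProduct]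
        refine Finset.sum_eq_zero fun j _ => ?_
        by_cases hj : c j ≤ J
        · rw [h0 a i j (by omega), zero_mul]
        · rw [heY0 _ _ hj, mul_zero]
    change P⁻¹.mulVec (eX _) = _
    rw [h2, Matrix.mulVec_mulVec, Matrix.nonsing_inv_mul _ ((Matrix.isUnit_iff_isUnit_det _).1 hP),
      Matrix.one_mulVec]
    rfl
  have h3 : Module.finrank ℂ (img C U) ≤ Fintype.card {i // r i ≤ J} := by
    refine (Submodule.finrank_mono hW).trans ?_
    refine (LinearMap.finrank_range_le _).trans ?_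
    rw [Module.finrank_fintype_fun_eq_card]
  have h4 := hU U
  rw [hUd] at h4
  exact h4.trans (Nat.mul_le_mul_left _ h3)

/-- the slope of the first block is the smallest -/
theorem slope {n : ℕ} {X Y : Type} [Fintype X] [DecidableEq X] [Fintype Y] [DecidableEq Y]
    (C : Fin n → Matrix X Y ℂ) (P : Matrix X X ℂ) (Q : Matrix Y Y ℂ) (r : X → ℕ) (c : Y → ℕ)
    (hP : IsUnit P) (hQ : IsUnit Q) (h0 : ∀ a i j, c j < r i → (P * C a * Q) i j = 0)
    (hs : ∀ I J, I ≤ J → Fintype.card {i // r i = I} * Fintype.card {j // c j = J} ≤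
      Fintype.card {i // r i = J} * Fintype.card {j // c j = I})
    (x₀ y₀ : ℕ) (hU : ∀ U : Submodule ℂ (Y → ℂ), x₀ * Module.finrank ℂ U ≤
      y₀ * Module.finrank ℂ (img C U)) (J : ℕ) :
    x₀ * Fintype.card {j // c j = J} ≤ Fintype.card {i // r i = J} * y₀ := by
  have h1 := dims C P Q r c hP hQ h0 x₀ y₀ hU J
  set SX := Fintype.card {i // r i ≤ J} with hSX
  set SY := Fintype.card {j // c j ≤ J} with hSY
  have h2 : SX * Fintype.card {j // c j = J} ≤ Fintype.card {i // r i = J} * SY := by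
    rw [hSX, hSY, range_card, range_card, Finset.sum_mul, Finset.mul_sum]
    refine Finset.sum_le_sum fun I hI => ?_
    exact hs I J (by rw [mem_range] at hI; omega)
  have h3 : Fintype.card {j // c j = J} ≤ SY := by
    rw [hSY, range_card]
    exact Finset.single_le_sum (f := fun I => Fintype.card {j // c j = I})
      (fun _ _ => Nat.zero_le _) (mem_range.2 (Nat.lt_succ_self J))
  rcases Nat.eq_zero_or_pos SY with h4 | h4
  · have h5 : Fintype.card {j // c j = J} = 0 := by omega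
    rw [h5, mul_zero]
    exact Nat.zero_le _
  · refine Nat.le_of_mul_le_mul_right ?_ h4
    calc x₀ * Fintype.card {j // c j = J} * SY = (x₀ * SY) * Fintype.card {j // c j = J} := by ring
      _ ≤ (y₀ * SX) * Fintype.card {j // c j = J} := Nat.mul_le_mul_right _ h1
      _ = y₀ * (SX * Fintype.card {j // c j = J}) := by ring
      _ ≤ y₀ * (Fintype.card {i // r i = J} * SY) := Nat.mul_le_mul_left _ h2
      _ = Fintype.card {i // r i = J} * y₀ * SY := by ring

end Hnf

open Hnf in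
theorem hnf_thm (hHNA : HNAStmt) : HNFStmt := by
  intro n X Y
  suffices H : ∀ (N : ℕ) (X Y : Type) [Fintype X] [DecidableEq X] [Fintype Y]
      [DecidableEq Y] (A : Fin n → Matrix X Y ℂ), Fintype.card Y ≤ N →
      ∃ (P : Matrix X X ℂ) (Q : Matrix Y Y ℂ) (r : X → ℕ) (c : Y → ℕ), IsUnit P ∧ IsUnit Q ∧
        (∀ a i j, c j < r i → (P * A a * Q) i j = 0) ∧
        (∀ I J, I ≤ J → Fintype.card {i // r i = I} * Fintype.card {j // c j = J} ≤
          Fintype.card {i // r i = J} * Fintype.card {j // c j = I}) ∧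
        ∀ J, SS (fun a => (P * A a * Q).submatrix (Subtype.val : {i // r i = J} → X)
          (Subtype.val : {j // c j = J} → Y)) by
    intro _ _ _ _ A
    exact H _ X Y A le_rfl
  clear X Y
  intro N
  induction N with
  | zero =>
    intro X Y _ _ _ _ A hN
    have hE : IsEmpty Y := Fintype.card_eq_zero_iff.1 (Nat.le_zero.1 hN)
    refine ⟨1, 1, fun _ => 0, fun _ => 0, isUnit_one, isUnit_one, fun _ _ j => hE.elim j,
      ?_, ?_⟩
    · intro I J _
      have h1 : ∀ J, Fintype.card {j : Y // (fun _ => 0 : Y → ℕ) j = J} = 0 := by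
        intro J
        exact Fintype.card_eq_zero_iff.2 ⟨fun j => hE.elim j.1⟩
      rw [h1 J, mul_zero]
      exact Nat.zero_le _
    · intro J U
      have h1 : Module.finrank ℂ U = 0 := by
        have h2 : Subsingleton ({j : Y // (fun _ => 0 : Y → ℕ) j = J} → ℂ) :=
          ⟨fun u v => by funext j; exact hE.elim j.1⟩
        exact Module.finrank_zero_of_subsingleton (R := ℂ) (M := U)
      rw [h1, mul_zero]
      exact Nat.zero_le _
  | succ N ih =>
    intro X Y _ _ _ _ A hN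
    rcases isEmpty_or_nonempty Y with hE | hNe
    · exact ih X Y A (by rw [Fintype.card_eq_zero_iff.2 hE]; exact Nat.zero_le _)
    obtain ⟨P, Q, X₀, Y₀, hP, hQ, hY₀, hz, hss, hU⟩ := hHNA n X Y A
    let C : Fin n → Matrix {i // i ∉ X₀} {j // j ∉ Y₀} ℂ := fun a =>
      (P * A a * Q).submatrix (Subtype.val : {i // i ∉ X₀} → X)
        (Subtype.val : {j // j ∉ Y₀} → Y)
    have hcard : Fintype.card {j // j ∉ Y₀} ≤ N := by
      have h1 : Fintype.card {j // j ∉ Y₀} < Fintype.card Y := by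
        obtain ⟨y, hy⟩ := hY₀
        exact Fintype.card_subtype_lt (x := y) (by simpa using hy)
      omega
    obtain ⟨P', Q', r', c', hP', hQ', hz', hs', hss'⟩ := ih {i // i ∉ X₀} {j // j ∉ Y₀} C hcard
    have key : ∀ a, dg X₀ P' * P * A a * (Q * dg Y₀ Q') =
        dg X₀ P' * ((P * A a * Q) * dg Y₀ Q') := by
      intro a
      simp only [Matrix.mul_assoc]
    have hoo : ∀ a (i : {i // i ∉ X₀}) (j : {j // j ∉ Y₀}),
        (dg X₀ P' * P * A a * (Q * dg Y₀ Q')) i.1 j.1 = (P' * C a * Q') i j := by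
      intro a i j
      rw [key, dg_mul_out, Matrix.mul_assoc P' (C a) Q', Matrix.mul_apply]
      refine Finset.sum_congr rfl fun k _ => ?_
      rw [mul_dg_out, Matrix.mul_apply]
      rfl
    have hoi : ∀ a (i : {i // i ∉ X₀}) (j : {j // j ∈ Y₀}),
        (dg X₀ P' * P * A a * (Q * dg Y₀ Q')) i.1 j.1 = 0 := by
      intro a i j
      rw [key, dg_mul_out]
      refine Finset.sum_eq_zero fun k _ => ?_
      rw [mul_dg_in, hz a k.1 j.1 k.2 j.2, mul_zero]
    have hii : ∀ a (i : {i // i ∈ X₀}) (j : {j // j ∈ Y₀}),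
        (dg X₀ P' * P * A a * (Q * dg Y₀ Q')) i.1 j.1 = (P * A a * Q) i.1 j.1 := by
      intro a i j
      rw [key, dg_mul_in, mul_dg_in]
    refine ⟨dg X₀ P' * P, Q * dg Y₀ Q', lab X₀ r', lab Y₀ c', (dg_unit _ _ hP').mul hP,
      hQ.mul (dg_unit _ _ hQ'), ?_, ?_, ?_⟩
    · intro a i j hij
      by_cases hi : i ∈ X₀
      · rw [lab_in hi] at hij
        omega
      · by_cases hj : j ∈ Y₀
        · exact hoi a ⟨i, hi⟩ ⟨j, hj⟩
        · rw [lab_out hi, lab_out hj] at hij
          rw [hoo a ⟨i, hi⟩ ⟨j, hj⟩]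
          exact hz' a _ _ (by omega)
    · intro I J hIJ
      cases J with
      | zero =>
        have hI : I = 0 := by omega
        subst hI
        exact le_rfl
      | succ J =>
        cases I with
        | zero =>
          rw [card0, card0, cardS, cardS]
          exact slope C P' Q' r' c' hP' hQ' hz' hs' X₀.card Y₀.card hU J
        | succ I =>
          rw [cardS, cardS, cardS, cardS]
          exact hs' I J (by omega)
    · intro J
      cases J with
      | zero =>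
        refine ss_equiv (e0 X₀ r') (e0 Y₀ c') _ _ ?_ hss
        intro a i j
        exact hii a (e0 X₀ r' i) (e0 Y₀ c' j)
      | succ J =>
        refine ss_equiv (eS X₀ r' J) (eS Y₀ c' J) _ _ ?_ (hss' J)
        intro a i j
        exact hoo a (eS X₀ r' J i).1 (eS Y₀ c' J j).1

end Pool.Agent.H5.FR2
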